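import Pool.Agent.GTO.StmtsB

/-!
# Squad GTO, row DIJ: the sets of pairs are disjoint
-/

namespace Pool.Agent.GTO.H86

open Finset
open scoped Classical

theorem dij : DijStmt := by
  intro ι _ a c G _ φ H hC
  have hQ : ∀ i ∈ QQ a c φ H, Ns c (a i) ∧ φ (a i) ∈ H := fun i hi => (mem_filter.1 hi).2
  have hinj : ∀ i ∈ QQ a c φ H, ∀ j ∈ QQ a c φ H, φ (a i) = φ (a j) → i = j := by
    intro i hi j hj h
    by_contra hne
    exact hC.pi i j hne ((hC.grp.par _ _ (hQ i hi).1 (hQ j hj).1).1 h)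
  have hM : ∀ i ∈ QQ a c φ H, φ (a i) ∉ MM a c φ H := by
    intro i hi h
    exact (mem_filter.1 h).2 i hi rfl
  refine ⟨?_, ?_, ?_, ?_⟩
  · rw [disjoint_left]
    rintro ⟨i, j⟩ h1 h2
    unfold MISo at h1
    unfold TANo at h2
    simp only [mem_filter, mem_univ, true_and] at h1 h2
    apply hM i h1.1
    have h3 : -φ (a i) - φ (a j) = φ (a i) := by
      have h4 := h2.2.2.2
      rw [← sub_eq_zero]
      rw [← neg_eq_zero]
      rw [← h4]
      abel
    rw [← h3]
    exact h1.2.2.2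
  · rw [disjoint_left]
    rintro ⟨i, j⟩ h1 h2
    unfold MISo at h1
    unfold TANs at h2
    simp only [mem_filter, mem_univ, true_and] at h1 h2
    apply hM j h1.2.1
    have h3 : -φ (a i) - φ (a j) = φ (a j) := by
      have h4 := h2.2.2.2
      rw [← sub_eq_zero]
      rw [← neg_eq_zero]
      rw [← h4]
      abel
    rw [← h3]
    exact h1.2.2.2
  · rw [disjoint_left]
    rintro ⟨i, j⟩ h1 h2
    unfold TANo at h1
    unfold TANs at h2
    simp only [mem_filter, mem_univ, true_and] at h1 h2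
    apply h1.2.2.1
    apply hinj i h1.1 j h1.2.1
    have h3 := h1.2.2.2
    have h4 := h2.2.2.2
    have h5 : φ (a i) + (φ (a i) + φ (a j)) = φ (a j) + (φ (a i) + φ (a j)) := by
      have e1 : φ (a i) + (φ (a i) + φ (a j)) = 0 := by rw [← h3]; abel
      have e2 : φ (a j) + (φ (a i) + φ (a j)) = 0 := by rw [← h4]; abel
      rw [e1, e2]
    exact add_right_cancel h5
  · symm
    refine card_bij (fun p _ => (p.2, p.1)) ?_ ?_ ?_
    · rintro ⟨i, j⟩ h
      unfold TANo at h
      unfold TANs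
      simp only [mem_filter, mem_univ, true_and] at h ⊢
      exact ⟨h.2.1, h.1, h.2.2.1.symm, h.2.2.2⟩
    · rintro ⟨i, j⟩ _ ⟨i', j'⟩ _ h
      simp only [Prod.mk.injEq] at h
      simp [h.1, h.2]
    · rintro ⟨i, j⟩ h
      unfold TANs at h
      refine ⟨(j, i), ?_, rfl⟩
      unfold TANo
      simp only [mem_filter, mem_univ, true_and] at h ⊢
      exact ⟨h.2.1, h.1, h.2.2.1.symm, h.2.2.2⟩

end Pool.Agent.GTO.H86
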